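import Pool.Agent.H.MP_4a08ba_lc.D

namespace Pool.Agent.Results.MP_4a08ba_lc.Yes

open FirstOrder FirstOrder.Language

universe u v w

/-- The tree property: branches are finitely satisfiable, siblings are `k`-inconsistent. -/
def TP {L : FirstOrder.Language.{u, v}} (T : L.Theory) : Prop :=
  ∃ (α β : Type) (_ : Finite α) (_ : Finite β) (φ : L.Formula (α ⊕ β))
    (M : Theory.ModelType.{u, v, w} T) (a : List ℕ → β → M),
    (∀ (b : ℕ → ℕ) (K : ℕ), ∃ x : α → M, ∀ n ≤ K,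
      φ.Realize (Sum.elim x (a ((List.range n).map b)))) ∧
    ∃ k : ℕ, ∀ (η : List ℕ) (s : Finset ℕ), s.card = k →
      ¬ ∃ x : α → M, ∀ i ∈ s, φ.Realize (Sum.elim x (a (η ++ [i])))

/-- `P`-SOP: the poset `P` embeds in the inclusion order of the instances of one formula. -/
def SOP (P : Type) [PartialOrder P] {L : FirstOrder.Language.{u, v}} (T : L.Theory) : Prop :=
  ∃ (α β : Type) (_ : Finite α) (_ : Finite β) (φ : L.Formula (α ⊕ β))
    (M : Theory.ModelType.{u, v, w} T) (a : P → β → M),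
    ∀ s t : P, (∀ x : α → M, φ.Realize (Sum.elim x (a s)) → φ.Realize (Sum.elim x (a t))) ↔ s ≤ t

theorem result : ∃ (P : Type) (_ : PartialOrder P),
    ∀ (L : FirstOrder.Language.{u, v}) (T : L.Theory), TP.{u, v, w} T ↔ SOP.{u, v, w} P T := by
  refine ⟨Pool.Agent.H.MP_4a08ba_lc.Sg, inferInstance, fun L T => ⟨?_, ?_⟩⟩
  · rintro ⟨α, β, _, _, φ, M, a, h1, k, h2⟩
    obtain ⟨γ, hγ, θ, N, c, hc⟩ := Pool.Agent.H.MP_4a08ba_lc.tp_sop T M φ a h1 k h2
    exact ⟨γ, γ, hγ, hγ, θ, N, c, hc⟩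
  · rintro ⟨α, β, _, _, φ, M, a, h⟩
    obtain ⟨θ, c, h1, h2⟩ := Pool.Agent.H.MP_4a08ba_lc.sop_tp φ a h
    exact ⟨α, β ⊕ β, inferInstance, inferInstance, θ, M, c, h1, 2, h2⟩

end Pool.Agent.Results.MP_4a08ba_lc.Yes
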